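import Pool.Agent.Y798.OG.Part
import Pool.Agent.Y798.FC.Law

/-!
# Project OG (helper798), task OG-FEJ (author helper492)
-/

set_option autoImplicit false

open Complex Finset

namespace Pool.Agent.Y492.OG

/-- boundedness -/
def B {X : Type} (f : X → ℝ) : Prop := ∃ C, ∀ v, |f v| ≤ C

theorem pow_sub_one {z : ℂ} (hz : ‖z‖ = 1) (n : ℕ) : ‖z ^ n - 1‖ ≤ n * ‖z - 1‖ := by
  induction n with
  | zero => simp
  | succ n ih =>
    have e : z ^ (n + 1) - 1 = z * (z ^ n - 1) + (z - 1) := by ring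
    rw [e]
    refine (norm_add_le _ _).trans ?_
    rw [norm_mul, hz, one_mul]
    push_cast
    linarith

theorem pow_sub_pow {z : ℂ} (hz : ‖z‖ = 1) {n j k : ℕ} (hj : j < n) (hk : k < n) :
    ‖z ^ j - z ^ k‖ ≤ n * ‖z - 1‖ := by
  have key : ∀ j k : ℕ, j ≤ k → k < n → ‖z ^ j - z ^ k‖ ≤ n * ‖z - 1‖ := by
    intro j k hjk hk
    obtain ⟨m, rfl⟩ := Nat.exists_eq_add_of_le hjk
    have e : z ^ j - z ^ (j + m) = -(z ^ j * (z ^ m - 1)) := by ring
    rw [e, norm_neg, norm_mul, norm_pow, hz, one_pow, one_mul]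
    refine (pow_sub_one hz m).trans ?_
    have h1 : (m : ℝ) ≤ n := by exact_mod_cast (by omega : m ≤ n)
    exact mul_le_mul_of_nonneg_right h1 (norm_nonneg _)
  rcases le_total j k with h | h
  · exact key j k h hk
  · rw [norm_sub_rev]
    exact key k j h hj

/-- `Re (z ^ j * conj (z ^ k))` -/
noncomputable def cc (z : ℂ) (j k : ℕ) : ℝ := (z ^ j * (starRingEnd ℂ) (z ^ k)).re

theorem cc_le {z : ℂ} (hz : ‖z‖ = 1) {n j k : ℕ} (hj : j < n) (hk : k < n) :
    1 - cc z j k ≤ (n : ℝ) ^ 2 * (1 - z.re) := by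
  have h1 : ‖z ^ j - z ^ k‖ ^ 2 = 2 - 2 * cc z j k := by
    rw [← Complex.normSq_eq_norm_sq, Complex.normSq_sub, Complex.normSq_eq_norm_sq,
      Complex.normSq_eq_norm_sq, norm_pow, norm_pow, hz]
    unfold cc
    ring
  have h2 : ‖z - 1‖ ^ 2 = 2 - 2 * z.re := by
    rw [← Complex.normSq_eq_norm_sq, Complex.normSq_sub, Complex.normSq_eq_norm_sq, hz]
    simp
    ring
  have h3 := pow_le_pow_left₀ (norm_nonneg _) (pow_sub_pow hz hj hk) 2
  rw [h1, mul_pow, h2] at h3
  linarith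

theorem cc_pow {z : ℂ} (hz : ‖z‖ = 1) (j k : ℕ) (h : k < j) : cc z j k = (z ^ (j - k)).re := by
  obtain ⟨m, rfl⟩ := Nat.exists_eq_add_of_lt h
  unfold cc
  have e : k + m + 1 - k = m + 1 := by omega
  have h1 : z ^ k * (starRingEnd ℂ) (z ^ k) = 1 := by
    rw [Complex.mul_conj, Complex.normSq_eq_norm_sq, norm_pow, hz]
    simp
  rw [e]
  congr 1
  calc z ^ (k + m + 1) * (starRingEnd ℂ) (z ^ k)
      = z ^ (m + 1) * (z ^ k * (starRingEnd ℂ) (z ^ k)) := by ring
    _ = z ^ (m + 1) := by rw [h1, mul_one]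

theorem cc_comm (z : ℂ) (j k : ℕ) : cc z j k = cc z k j := by
  unfold cc
  have : z ^ j * (starRingEnd ℂ) (z ^ k) = (starRingEnd ℂ) (z ^ k * (starRingEnd ℂ) (z ^ j)) := by
    rw [map_mul, Complex.conj_conj, mul_comm]
  rw [this, Complex.conj_re]

theorem cc_self {z : ℂ} (hz : ‖z‖ = 1) (j : ℕ) : cc z j j = 1 := by
  unfold cc
  rw [Complex.mul_conj, Complex.normSq_eq_norm_sq, norm_pow, hz]
  simp

theorem sum_cc (z : ℂ) (n : ℕ) :
    ∑ j ∈ range n, ∑ k ∈ range n, cc z j k = ‖∑ j ∈ range n, z ^ j‖ ^ 2 := by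
  rw [← Complex.normSq_eq_norm_sq]
  have h : (Complex.normSq (∑ j ∈ range n, z ^ j) : ℂ) =
      ∑ j ∈ range n, ∑ k ∈ range n, z ^ j * (starRingEnd ℂ) (z ^ k) := by
    rw [← Complex.mul_conj, map_sum, Finset.sum_mul_sum]
  have h2 := congrArg Complex.re h
  rw [Complex.ofReal_re, Complex.re_sum] at h2
  rw [h2]
  refine Finset.sum_congr rfl fun j _ => ?_
  rw [Complex.re_sum]
  rfl

theorem abs_cc {z : ℂ} (hz : ‖z‖ = 1) (j k : ℕ) : |cc z j k| ≤ 1 := by
  unfold cc
  refine (Complex.abs_re_le_norm _).trans ?_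
  rw [norm_mul, RCLike.norm_conj, norm_pow, norm_pow, hz]
  simp

/-- abstract form -/
theorem fej_abs {X : Type} (M : (X → ℝ) → ℝ)
    (hmono : ∀ f g : X → ℝ, B f → B g → (∀ v, f v ≤ g v) → M f ≤ M g)
    (hsum : ∀ (s : Finset ℕ) (f : ℕ → X → ℝ), (∀ i ∈ s, B (f i)) →
      M (fun v => ∑ i ∈ s, f i v) = ∑ i ∈ s, M (f i))
    (hadd : ∀ f g : X → ℝ, B f → B g → M (fun v => f v + g v) = M f + M g)
    (hsub : ∀ f g : X → ℝ, B f → B g → M (fun v => f v - g v) = M f - M g)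
    (hmul : ∀ (c : ℝ) (f : X → ℝ), B f → M (fun v => c * f v) = c * M f)
    (hconst : ∀ c : ℝ, M (fun _ => c) = c)
    (z : X → ℂ) (hz : ∀ v, ‖z v‖ = 1) (h0 : ∀ n : ℕ, 0 < n → M (fun v => (z v ^ n).re) = 0)
    (a : X → ℝ) (ha : ∀ v, 0 ≤ a v ∧ a v ≤ 1)
    (H : M (fun v => a v * (z v).re) = M a) : M a = 0 := by
  have hBa : B a := ⟨1, fun v => by rw [abs_of_nonneg (ha v).1]; exact (ha v).2⟩
  have hre : ∀ v, |(z v).re| ≤ 1 := fun v => (Complex.abs_re_le_norm _).trans (hz v).le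
  have hBaz : B fun v => a v * (z v).re := ⟨1, fun v => by
    rw [abs_mul, abs_of_nonneg (ha v).1]
    have h1 := hre v
    have h2 := ha v
    nlinarith [abs_nonneg ((z v).re)]⟩
  have hBc : ∀ j k, B fun v => cc (z v) j k := fun j k => ⟨1, fun v => abs_cc (hz v) j k⟩
  have hMc : ∀ j k, M (fun v => cc (z v) j k) = if j = k then 1 else 0 := by
    intro j k
    split_ifs with h
    · subst h
      have : (fun v => cc (z v) j j) = fun _ => (1 : ℝ) := funext fun v => cc_self (hz v) j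
      rw [this, hconst]
    · rcases Nat.lt_or_gt_of_ne h with h1 | h1
      · have : (fun v => cc (z v) j k) = fun v => (z v ^ (k - j)).re :=
          funext fun v => by rw [cc_comm, cc_pow (hz v) k j h1]
        rw [this, h0 _ (by omega)]
      · have : (fun v => cc (z v) j k) = fun v => (z v ^ (j - k)).re :=
          funext fun v => by rw [cc_pow (hz v) j k h1]
        rw [this, h0 _ (by omega)]
  have hBS1 : ∀ n j, B fun v => ∑ k ∈ range n, cc (z v) j k := fun n j => ⟨n, fun v => by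
    refine (Finset.abs_sum_le_sum_abs _ _).trans ?_
    refine (Finset.sum_le_sum fun k _ => abs_cc (hz v) j k).trans ?_
    simp⟩
  have hBS : ∀ n, B fun v => ∑ j ∈ range n, ∑ k ∈ range n, cc (z v) j k := fun n =>
    ⟨n * n, fun v => by
      refine (Finset.abs_sum_le_sum_abs _ _).trans ?_
      have : ∀ j ∈ range n, |∑ k ∈ range n, cc (z v) j k| ≤ n := fun j _ => by
        refine (Finset.abs_sum_le_sum_abs _ _).trans ?_
        refine (Finset.sum_le_sum fun k _ => abs_cc (hz v) j k).trans ?_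
        simp
      refine (Finset.sum_le_sum this).trans ?_
      simp⟩
  have hMS : ∀ n : ℕ, M (fun v => ∑ j ∈ range n, ∑ k ∈ range n, cc (z v) j k) = n := by
    intro n
    rw [hsum _ _ fun j _ => hBS1 n j]
    have : ∀ j ∈ range n, M (fun v => ∑ k ∈ range n, cc (z v) j k) = 1 := by
      intro j hj
      rw [hsum _ _ fun k _ => hBc j k]
      simp only [hMc]
      rw [Finset.sum_ite_eq, if_pos hj]
    rw [Finset.sum_congr rfl this]
    simp
  have hnn : 0 ≤ M a := by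
    have h1 := hmono (fun _ => 0) a ⟨0, fun v => by simp⟩ hBa fun v => (ha v).1
    rwa [hconst] at h1
  have hBd : B fun v => a v - a v * (z v).re := by
    obtain ⟨C, hC⟩ := hBa
    obtain ⟨C', hC'⟩ := hBaz
    refine ⟨C + C', fun v => (abs_sub _ _).trans (add_le_add (hC v) (hC' v))⟩
  have key : ∀ n : ℕ, (n : ℝ) ^ 2 * M a ≤ n := by
    intro n
    have hB3 : B fun v => (n : ℝ) ^ 4 * (a v - a v * (z v).re) := by
      obtain ⟨C, hC⟩ := hBd
      refine ⟨(n : ℝ) ^ 4 * C, fun v => ?_⟩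
      rw [abs_mul, abs_of_nonneg (by positivity : (0 : ℝ) ≤ (n : ℝ) ^ 4)]
      exact mul_le_mul_of_nonneg_left (hC v) (by positivity)
    have hB4 : B fun v => (∑ j ∈ range n, ∑ k ∈ range n, cc (z v) j k) +
        (n : ℝ) ^ 4 * (a v - a v * (z v).re) := by
      obtain ⟨C, hC⟩ := hBS n
      obtain ⟨C', hC'⟩ := hB3
      exact ⟨C + C', fun v => (abs_add_le _ _).trans (add_le_add (hC v) (hC' v))⟩
    have hB5 : B fun v => (n : ℝ) ^ 2 * a v := ⟨(n : ℝ) ^ 2, fun v => by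
      rw [abs_mul, abs_of_nonneg (ha v).1, abs_of_nonneg (by positivity : (0 : ℝ) ≤ (n : ℝ) ^ 2)]
      have := (ha v).2
      nlinarith [sq_nonneg (n : ℝ)]⟩
    have h1 := hmono _ _ hB5 hB4 (fun v => by
      have h2 : (n : ℝ) ^ 2 - ∑ j ∈ range n, ∑ k ∈ range n, cc (z v) j k ≤
          (n : ℝ) ^ 4 * (1 - (z v).re) := by
        have h3 : ∑ j ∈ range n, ∑ k ∈ range n, (1 - cc (z v) j k) ≤
            ∑ j ∈ range n, ∑ k ∈ range n, (n : ℝ) ^ 2 * (1 - (z v).re) :=
          Finset.sum_le_sum fun j hj => Finset.sum_le_sum fun k hk =>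
            cc_le (hz v) (Finset.mem_range.1 hj) (Finset.mem_range.1 hk)
        simp only [Finset.sum_sub_distrib, Finset.sum_const, Finset.card_range, nsmul_eq_mul,
          mul_one] at h3
        nlinarith
      have h4 : 0 ≤ ∑ j ∈ range n, ∑ k ∈ range n, cc (z v) j k := by
        rw [sum_cc]; positivity
      have h5 := ha v
      have h6 := mul_le_mul_of_nonneg_left h2 h5.1
      nlinarith)
    rw [hmul _ _ hBa, hadd _ _ (hBS n) hB3, hMS, hmul _ _ hBd, hsub _ _ hBa hBaz, H, sub_self,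
      mul_zero, add_zero] at h1
    exact h1
  by_contra hne
  have hpos : 0 < M a := lt_of_le_of_ne hnn (Ne.symm hne)
  obtain ⟨n, hn⟩ := exists_nat_gt (1 / M a)
  have hn0 : 0 < (n : ℝ) := (by positivity : (0 : ℝ) < 1 / M a).trans hn
  have h1 := key n
  rw [div_lt_iff₀ hpos] at hn
  nlinarith

section

open Filter Topology NumberField IsDedekindDomain
  Pool.Agent.W540.BE Pool.Agent.TH553.RS Pool.Agent.TH553.ST Pool.Agent.Y798.FC
  Pool.Agent.Y798.OG

theorem t : StmFej := by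
  intro K _ _ U hU a ha τ hτ s hs H
  have hN := sysF K
  have hb : ∀ σ : ℝ, Bd fun v => (ht (K := K) σ v).re := fun σ =>
    ⟨1, fun v => (Complex.abs_re_le_norm _).trans (norm_ht σ v).le⟩
  refine fej_abs (M (nm K) U) (fun f g hf hg h => M_mono hN hU hf hg h)
    (fun S f h => M_sum hN hU S h) (fun f g hf hg => M_add hN hU hf hg)
    (fun f g hf hg => M_sub hN hU hf hg) (fun c f hf => M_const_mul hN hU hf c)
    (fun c => M_const hN hU c) (fun v => (s : ℂ) * ht τ v) ?_ ?_ a ha ?_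
  · intro v
    rw [norm_mul, norm_ht, mul_one]
    rcases hs with h | h <;> rw [h] <;> simp
  · intro n hn
    have e : (fun v : HeightOneSpectrum (𝓞 K) => (((s : ℂ) * ht τ v) ^ n).re) =
        fun v => s ^ n * (ht ((n : ℝ) * τ) v).re := by
      funext v
      rw [mul_pow, ht_pow, ← Complex.ofReal_pow, Complex.re_ofReal_mul]
    have hn0 : (n : ℝ) * τ ≠ 0 := mul_ne_zero (by exact_mod_cast hn.ne') hτ
    rw [e, M_const_mul hN hU (hb _), M_ht hU hn0, mul_zero]
  · rw [← H]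
    have e : (fun v : HeightOneSpectrum (𝓞 K) => a v * ((s : ℂ) * ht τ v).re) =
        fun v => a v * (s * (ht τ v).re) := by
      funext v
      rw [Complex.re_ofReal_mul]
    exact congrArg (M (nm K) U) e

end

end Pool.Agent.Y492.OG
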